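import Mathlib

set_option autoImplicit false

/-!
# Logarithmic growth is sharp for `h` a power of `log |A|`

For every `N ≥ 3` there is a set `A` of `N` positive integers (squarefree numbers composed of the
first `⌈log₂ N⌉` primes) such that for all `h ≥ 2`
`|hA| ≤ N^(C (log h + log log N))` and `|A^h| ≤ N^(C log h)`.
-/

namespace Pool.Agent.Helper74.SH

open Finset Real

/-- The first `t` primes. -/
noncomputable def P (t : ℕ) : Finset ℕ := (range t).image (Nat.nth Nat.Prime)

lemma card_P (t : ℕ) : (P t).card = t := by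
  unfold P
  rw [card_image_of_injective _ (Nat.nth_injective Nat.infinite_setOfPred_prime), card_range]

lemma prime_of_mem {t p : ℕ} (hp : p ∈ P t) : p.Prime := by
  unfold P at hp
  obtain ⟨i, _, rfl⟩ := mem_image.1 hp
  exact Nat.nth_mem_of_infinite Nat.infinite_setOfPred_prime i

/-- The last of the first `t` primes is at most `22 t (1 + log t)`. -/
lemma nth_le (t : ℕ) (ht : 1 ≤ t) :
    ((Nat.nth Nat.Prime (t - 1) : ℕ) : ℝ) ≤ 22 * t * (1 + log t) := by
  set n := Nat.nth Nat.Prime (t - 1) with hn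
  have hp : n.Prime := Nat.nth_mem_of_infinite Nat.infinite_setOfPred_prime _
  have hpi : Nat.primeCounting n = t := by
    have h1 : Nat.primeCounting' n = t - 1 := by
      rw [hn]
      exact Nat.primeCounting'_nth_eq _
    have h2 : Nat.primeCounting n = Nat.primeCounting' n + 1 := by
      unfold Nat.primeCounting Nat.primeCounting'
      rw [Nat.count_succ, if_pos hp]
    omega
  have hn2 : (2 : ℝ) ≤ n := by exact_mod_cast hp.two_le
  have hl2 : 0.69 < log 2 := by have := Real.log_two_gt_d9; linarith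
  have hl2' : log 2 < 0.7 := by have := Real.log_two_lt_d9; linarith
  have hln : log 2 ≤ log n := Real.log_le_log (by norm_num) hn2
  have hln0 : 0 < log n := by linarith
  have ht1 : (1 : ℝ) ≤ t := by exact_mod_cast ht
  have h := Chebyshev.pi_ge n
  rw [hpi, div_le_iff₀ hln0] at h
  have h3 : log ((n : ℝ) + 1) ≤ 2 * log n := by
    have : log ((n : ℝ) + 1) ≤ log (2 * n) := Real.log_le_log (by linarith) (by linarith)
    rw [Real.log_mul (by norm_num) (by linarith)] at this
    linarith
  have h4 : (n : ℝ) * 0.69 ≤ 3 * t * log n := by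
    have : (n : ℝ) * 0.69 ≤ n * log 2 := by
      refine mul_le_mul_of_nonneg_left hl2.le (by linarith)
    nlinarith
  -- `log n ≤ 2 √n`
  have hs : 0 < √(n : ℝ) := Real.sqrt_pos.2 (by linarith)
  have hsq : √(n : ℝ) * √(n : ℝ) = n := Real.mul_self_sqrt (by linarith)
  have h5 : log n ≤ 2 * √(n : ℝ) := by
    have h6 : log (√(n : ℝ)) ≤ √(n : ℝ) - 1 := Real.log_le_sub_one_of_pos hs
    have h7 : log (n : ℝ) = 2 * log (√(n : ℝ)) := by
      conv_lhs => rw [← hsq]
      rw [Real.log_mul hs.ne' hs.ne']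
      ring
    linarith
  have h6 : √(n : ℝ) ≤ 9 * t := by
    have : √(n : ℝ) * (√(n : ℝ) * 0.69) ≤ √(n : ℝ) * (6 * t) := by
      calc √(n : ℝ) * (√(n : ℝ) * 0.69) = n * 0.69 := by rw [← mul_assoc, hsq]
        _ ≤ 3 * t * log n := h4
        _ ≤ 3 * t * (2 * √(n : ℝ)) := mul_le_mul_of_nonneg_left h5 (by linarith)
        _ = √(n : ℝ) * (6 * t) := by ring
    have h8 := le_of_mul_le_mul_left this hs
    linarith
  have h7 : log n ≤ 5 * (1 + log t) := by
    have h8 : (n : ℝ) ≤ (9 * t) ^ 2 := by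
      rw [← hsq]
      nlinarith
    have h9 : log (n : ℝ) ≤ log ((9 * t) ^ 2) := Real.log_le_log (by linarith) h8
    rw [Real.log_pow, Real.log_mul (by norm_num) (by linarith)] at h9
    have h10 : log 9 ≤ 2.5 := by
      have : log 9 ≤ log (2 ^ 3 * (9 / 8)) := by norm_num
      rw [Real.log_mul (by norm_num) (by norm_num), Real.log_pow] at this
      have h11 : log (9 / 8 : ℝ) ≤ 9 / 8 - 1 := Real.log_le_sub_one_of_pos (by norm_num)
      push_cast at this
      linarith
    have h12 : 0 ≤ log (t : ℝ) := Real.log_nonneg ht1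
    push_cast at h9
    linarith
  have h13 : 0 ≤ log (t : ℝ) := Real.log_nonneg ht1
  have h14 : 3 * (t : ℝ) * log n ≤ 3 * t * (5 * (1 + log t)) :=
    mul_le_mul_of_nonneg_left h7 (by linarith)
  have h15 : 0 ≤ (t : ℝ) * (1 + log t) := by positivity
  nlinarith

/-- The product of the first `t` primes. -/
lemma prod_P_le (t : ℕ) (ht : 1 ≤ t) : ∏ p ∈ P t, p ≤ 4 ^ (Nat.nth Nat.Prime (t - 1)) := by
  refine le_trans ?_ (primorial_le_four_pow _)
  unfold primorial
  refine Finset.prod_le_prod_of_subset_of_one_le' ?_ ?_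
  · intro p hp
    have h1 := prime_of_mem hp
    unfold P at hp
    obtain ⟨i, hi, rfl⟩ := mem_image.1 hp
    have h2 : Nat.nth Nat.Prime i ≤ Nat.nth Nat.Prime (t - 1) :=
      (Nat.nth_monotone Nat.infinite_setOfPred_prime) (by have := mem_range.1 hi; omega)
    simp only [mem_filter, mem_range]
    exact ⟨by omega, h1⟩
  · intro p hp _
    have := (mem_filter.1 hp).2
    exact this.one_le

/-- The squarefree numbers composed of the first `t` primes. -/
noncomputable def D (t : ℕ) : Finset ℤ :=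
  (P t).powerset.image fun S => ((∏ p ∈ S, p : ℕ) : ℤ)

lemma card_D (t : ℕ) : (D t).card = 2 ^ t := by
  unfold D
  rw [card_image_of_injOn, card_powerset, card_P]
  intro S hS T hT h
  have h1 : ∏ p ∈ S, p = ∏ p ∈ T, p := by
    simp only at h
    exact_mod_cast h
  have h2 : ∀ U : Finset ℕ, U ⊆ P t → (∏ p ∈ U, p).primeFactors = U := fun U hU =>
    Nat.primeFactors_prod fun p hp => prime_of_mem (hU hp)
  rw [← h2 S (mem_powerset.1 hS), ← h2 T (mem_powerset.1 hT), h1]

lemma mem_D {t : ℕ} {a : ℤ} (ha : a ∈ D t) (ht : 1 ≤ t) :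
    1 ≤ a ∧ a ≤ 4 ^ (Nat.nth Nat.Prime (t - 1)) := by
  unfold D at ha
  obtain ⟨S, hS, rfl⟩ := mem_image.1 ha
  have hS' := mem_powerset.1 hS
  constructor
  · exact_mod_cast Nat.one_le_iff_ne_zero.2
      (Finset.prod_ne_zero_iff.2 fun p hp => (prime_of_mem (hS' hp)).ne_zero)
  · have h1 : ∏ p ∈ S, p ≤ ∏ p ∈ P t, p :=
      Finset.prod_le_prod_of_subset_of_one_le' hS' fun p hp _ => (prime_of_mem hp).one_le
    exact_mod_cast h1.trans (prod_P_le t ht)

/-- The sums of `h` elements. -/
lemma card_sums {t h : ℕ} (ht : 1 ≤ t) (hh : 1 ≤ h) {A : Finset ℤ} (hA : A ⊆ D t) :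
    ((Fintype.piFinset (fun _ : Fin h => A)).image (fun f : Fin h → ℤ => ∑ i, f i)).card ≤
      h * 4 ^ (Nat.nth Nat.Prime (t - 1)) := by
  set M : ℕ := 4 ^ (Nat.nth Nat.Prime (t - 1)) with hM
  have hsub : (Fintype.piFinset (fun _ : Fin h => A)).image (fun f : Fin h → ℤ => ∑ i, f i) ⊆
      Finset.Ioc (0 : ℤ) (h * M) := by
    intro s hs
    obtain ⟨f, hf, rfl⟩ := mem_image.1 hs
    have hf' := Fintype.mem_piFinset.1 hf
    have h1 : ∀ i, 1 ≤ f i ∧ f i ≤ M := fun i => by
      have := mem_D (hA (hf' i)) ht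
      rw [hM]
      push_cast
      exact this
    rw [Finset.mem_Ioc]
    constructor
    · refine Finset.sum_pos (fun i _ => by linarith [(h1 i).1]) ⟨⟨0, by omega⟩, mem_univ _⟩
    · calc ∑ i, f i ≤ ∑ _i : Fin h, (M : ℤ) := Finset.sum_le_sum fun i _ => (h1 i).2
        _ = h * M := by simp
  refine (card_le_card hsub).trans (le_of_eq ?_)
  rw [Int.card_Ioc, sub_zero, ← Nat.cast_mul, Int.toNat_natCast]

/-- The products of `h` elements. -/
lemma card_prods {t h : ℕ} {A : Finset ℤ} (hA : A ⊆ D t) :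
    ((Fintype.piFinset (fun _ : Fin h => A)).image (fun f : Fin h → ℤ => ∏ i, f i)).card ≤
      (h + 1) ^ t := by
  classical
  have hsub : (Fintype.piFinset (fun _ : Fin h => A)).image (fun f : Fin h → ℤ => ∏ i, f i) ⊆
      (univ : Finset ({p // p ∈ P t} → Fin (h + 1))).image
        (fun e => ∏ p : {p // p ∈ P t}, ((p : ℕ) : ℤ) ^ (e p : ℕ)) := by
    intro s hs
    obtain ⟨f, hf, rfl⟩ := mem_image.1 hs
    have hf' := Fintype.mem_piFinset.1 hf
    have h1 : ∀ i, ∃ S : Finset ℕ, S ⊆ P t ∧ f i = ((∏ p ∈ S, p : ℕ) : ℤ) := fun i => by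
      have := hA (hf' i)
      unfold D at this
      obtain ⟨S, hS, h⟩ := mem_image.1 this
      exact ⟨S, mem_powerset.1 hS, h.symm⟩
    choose S hS hfS using h1
    rw [mem_image]
    refine ⟨fun p => ⟨(univ.filter fun i => (p : ℕ) ∈ S i).card, ?_⟩, mem_univ _, ?_⟩
    · have := card_filter_le (univ : Finset (Fin h)) (fun i => (p : ℕ) ∈ S i)
      rw [card_univ, Fintype.card_fin] at this
      omega
    · have h2 : ∀ i, f i = ∏ p : {p // p ∈ P t}, if (p : ℕ) ∈ S i then ((p : ℕ) : ℤ) else 1 := by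
        intro i
        rw [hfS i, Finset.univ_eq_attach, Finset.prod_attach (P t)
          (fun p => if p ∈ S i then ((p : ℕ) : ℤ) else 1), Finset.prod_ite, Finset.prod_const_one,
          mul_one, Finset.filter_mem_eq_inter, Finset.inter_eq_right.2 (hS i)]
        push_cast
        rfl
      simp_rw [h2]
      rw [Finset.prod_comm]
      refine Finset.prod_congr rfl fun p _ => ?_
      rw [Finset.prod_ite, Finset.prod_const_one, mul_one, Finset.prod_const]
  refine (card_le_card hsub).trans (card_image_le.trans (le_of_eq ?_))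
  rw [card_univ, Fintype.card_fun, Fintype.card_fin, Fintype.card_coe, card_P]

/-- **Sharpness.** There is `C > 0` such that for every `N ≥ 3` some set `A` of `N` positive
integers satisfies `|hA| ≤ N^(C (log h + log log N))` and `|A^h| ≤ N^(C log h)` for all
`h ≥ 2`. -/
theorem sharp : ∃ C : ℝ, 0 < C ∧ ∀ N : ℕ, 3 ≤ N → ∃ A : Finset ℤ, A.card = N ∧ (∀ a ∈ A, 0 < a) ∧
    ∀ h : ℕ, 2 ≤ h →
      (((Fintype.piFinset (fun _ : Fin h => A)).image (fun f : Fin h → ℤ => ∑ i, f i)).card : ℝ) ≤
        (N : ℝ) ^ (C * (log h + log (log N))) ∧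
      (((Fintype.piFinset (fun _ : Fin h => A)).image (fun f : Fin h → ℤ => ∏ i, f i)).card : ℝ) ≤
        (N : ℝ) ^ (C * log h) := by
  refine ⟨500, by norm_num, fun N hN => ?_⟩
  set t := Nat.clog 2 N with ht
  have ht1 : 1 ≤ t := Nat.clog_pos (by norm_num) (by omega)
  have hN2 : N ≤ 2 ^ t := Nat.le_pow_clog (by norm_num) N
  have hN1 : 2 ^ (t - 1) < N := Nat.pow_pred_clog_lt_self (by norm_num) (by omega)
  obtain ⟨A, hAD, hA⟩ := Finset.exists_subset_card_eq (hN2.trans (card_D t).ge)
  refine ⟨A, hA, fun a ha => by linarith [(mem_D (hAD ha) ht1).1], fun h hh => ?_⟩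
  have hN0 : (0 : ℝ) < N := by exact_mod_cast (by omega : 0 < N)
  have hN3 : (3 : ℝ) ≤ N := by exact_mod_cast hN
  have hl2 : 0.69 < log 2 := by have := Real.log_two_gt_d9; linarith
  have hl2' : log 2 < 0.7 := by have := Real.log_two_lt_d9; linarith
  have hlN : (1 : ℝ) ≤ log N := by
    have h3 : log 3 ≤ log N := Real.log_le_log (by norm_num) hN3
    have h4 : (1 : ℝ) ≤ log 3 := by
      rw [← Real.log_exp 1]
      refine Real.log_le_log (Real.exp_pos _) ?_
      have := Real.exp_one_lt_d9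
      linarith
    linarith
  have hll : 0 ≤ log (log N) := Real.log_nonneg hlN
  have hh2 : (2 : ℝ) ≤ h := by exact_mod_cast hh
  have hlh : log 2 ≤ log h := Real.log_le_log (by norm_num) hh2
  have ht1' : (1 : ℝ) ≤ t := by exact_mod_cast ht1
  -- `t ≤ 3 log N`
  have htN : (t : ℝ) ≤ 3 * log N := by
    have h5 : ((2 : ℝ) ^ (t - 1)) ≤ N := by exact_mod_cast hN1.le
    have h6 := Real.log_le_log (by positivity) h5
    rw [Real.log_pow, Nat.cast_sub ht1] at h6
    push_cast at h6
    nlinarith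
  have hlt : log t ≤ 1.2 + log (log N) := by
    have h7 : log (t : ℝ) ≤ log (3 * log N) := Real.log_le_log (by linarith) htN
    rw [Real.log_mul (by norm_num) (by linarith)] at h7
    have h8 : log 3 ≤ 1.2 := by
      have h9 : (log 3 : ℝ) ≤ log (2 ^ 2 * (3 / 4)) := by norm_num
      rw [Real.log_mul (by norm_num) (by norm_num), Real.log_pow] at h9
      have h10 : log (3 / 4 : ℝ) ≤ 3 / 4 - 1 := Real.log_le_sub_one_of_pos (by norm_num)
      push_cast at h9
      nlinarith
    linarith
  have hlt0 : 0 ≤ log (t : ℝ) := Real.log_nonneg ht1'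
  constructor
  · have h1 := card_sums (h := h) ht1 (by omega) hAD
    have h2 : (((Fintype.piFinset (fun _ : Fin h => A)).image
        (fun f : Fin h → ℤ => ∑ i, f i)).card : ℝ) ≤
        (h : ℝ) * 4 ^ (Nat.nth Nat.Prime (t - 1)) := by exact_mod_cast h1
    refine h2.trans ?_
    have h3 := nth_le t ht1
    set n := Nat.nth Nat.Prime (t - 1)
    rw [Real.rpow_def_of_pos hN0, ← Real.log_le_iff_le_exp (by positivity),
      Real.log_mul (by positivity) (by positivity), Real.log_pow]
    have h4 : log 4 ≤ 1.4 := by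
      have : (log 4 : ℝ) = 2 * log 2 := by
        rw [show (4 : ℝ) = 2 ^ 2 by norm_num, Real.log_pow]
        norm_num
      linarith
    have h5 : (n : ℝ) * log 4 ≤ 22 * (3 * log N) * (1 + (1.2 + log (log N))) * 1.4 := by
      have h6 : (n : ℝ) ≤ 22 * (3 * log N) * (1 + (1.2 + log (log N))) := by
        refine h3.trans ?_
        have h7 : 22 * (t : ℝ) ≤ 22 * (3 * log N) := by linarith
        exact mul_le_mul h7 (by linarith) (by linarith) (by linarith)
      have h8 : (0 : ℝ) ≤ n := by positivity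
      have h9 : 0 ≤ log (4 : ℝ) := Real.log_nonneg (by norm_num)
      exact mul_le_mul h6 h4 h9 (by positivity)
    have h6 : log (h : ℝ) ≤ log N * log h := by nlinarith
    have h10 : 0 ≤ log (N : ℝ) * log (log N) := by positivity
    have h11 : log (N : ℝ) * 0.69 ≤ log N * log h := by
      refine mul_le_mul_of_nonneg_left (by linarith) (by linarith)
    nlinarith
  · have h1 := card_prods (h := h) hAD
    have h2 : (((Fintype.piFinset (fun _ : Fin h => A)).image
        (fun f : Fin h → ℤ => ∏ i, f i)).card : ℝ) ≤ ((h : ℝ) + 1) ^ t := by exact_mod_cast h1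
    refine h2.trans ?_
    rw [Real.rpow_def_of_pos hN0, ← Real.log_le_iff_le_exp (by positivity), Real.log_pow]
    have h3 : log ((h : ℝ) + 1) ≤ 2 * log h := by
      have : log ((h : ℝ) + 1) ≤ log (2 * h) := Real.log_le_log (by linarith) (by linarith)
      rw [Real.log_mul (by norm_num) (by linarith)] at this
      linarith
    have h4 : 0 ≤ log (h : ℝ) := by linarith
    calc (t : ℝ) * log ((h : ℝ) + 1) ≤ (3 * log N) * (2 * log h) :=
          mul_le_mul htN h3 (Real.log_nonneg (by linarith)) (by linarith)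
      _ ≤ log N * (500 * log h) := by nlinarith [mul_nonneg (by linarith : (0:ℝ) ≤ log N) h4]

end Pool.Agent.Helper74.SH
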