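import Pool.Agent.Helper24.ES.TopB2
import Pool.Agent.Helper74.SH.Sharp

set_option autoImplicit false

/-!
# The order of `max (|hA|, |A^h|)` when `h` is a power of `log |A|`

For `(log N)^c ≤ h ≤ (log N)^(1-c)` the least value of `max (|hA|, |A^h|)` over all sets `A` of `N`
integers is `N^(Θ(log h))`.
-/

namespace Pool.Agent.Helper74.SH

open Finset Real Filter

/-- The lower bound. -/
theorem order_lower (c : ℝ) (hc : 0 < c) :
    ∃ N₀ : ℕ, ∀ A : Finset ℤ, N₀ ≤ A.card → ∀ h : ℕ, log A.card ^ c ≤ h →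
      (h : ℝ) ≤ log A.card ^ (1 - c) →
      (A.card : ℝ) ^ (1 / 2 * log h) ≤ max
        (((Fintype.piFinset (fun _ : Fin h => A)).image (fun f : Fin h → ℤ => ∑ i, f i)).card : ℝ)
        (((Fintype.piFinset (fun _ : Fin h => A)).image (fun f : Fin h → ℤ => ∏ i, f i)).card : ℝ)
        := by
  have hsp : ((7 : ℝ) / 10 + 7 / 10) * Real.binEntropy ((7 / 10) / (7 / 10 + 7 / 10)) < 1 := by
    have h1 : ((7 : ℝ) / 10) / (7 / 10 + 7 / 10) = 2⁻¹ := by norm_num
    rw [h1, Real.binEntropy_two_inv]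
    have := Real.log_two_lt_d9
    linarith
  obtain ⟨k₀, C, hC, hmain⟩ := Helper24.ES.topB_explicit (7 / 10) (7 / 10) (by norm_num)
    (by norm_num) hsp
  -- asymptotic facts
  have hL : Tendsto (fun N : ℕ => log (N : ℝ)) atTop atTop :=
    Real.tendsto_log_atTop.comp tendsto_natCast_atTop_atTop
  have e1 : ∀ᶠ N : ℕ in atTop, (max k₀ 3 : ℝ) ≤ log (N : ℝ) ^ c :=
    ((tendsto_rpow_atTop hc).comp hL).eventually_ge_atTop _
  have e2 : ∀ᶠ N : ℕ in atTop, C * log (log (N : ℝ)) ^ 2 * log (N : ℝ) ^ (1 - c) ≤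
      1 / 5 * log (N : ℝ) := by
    have h2 : Tendsto (fun x : ℝ => log x ^ 2 / x ^ c) atTop (nhds 0) := by
      have := (isLittleO_log_rpow_rpow_atTop 2 hc).tendsto_div_nhds_zero
      refine this.congr fun x => ?_
      norm_cast
    have h3 : ∀ᶠ x : ℝ in atTop, C * log x ^ 2 * x ^ (1 - c) ≤ 1 / 5 * x := by
      have h4 : ∀ᶠ x : ℝ in atTop, log x ^ 2 / x ^ c < 1 / (5 * C) :=
        h2.eventually_lt_const (by positivity)
      filter_upwards [h4, eventually_gt_atTop 0] with x hx hx0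
      have h5 : 0 < x ^ c := rpow_pos_of_pos hx0 c
      rw [div_lt_div_iff₀ h5 (by positivity)] at hx
      have h6 : x ^ (1 - c) = x / x ^ c := by rw [rpow_sub hx0, rpow_one]
      rw [h6, ← mul_div_assoc, div_le_iff₀ h5]
      nlinarith
    exact hL.eventually h3
  have e3 : ∀ᶠ N : ℕ in atTop, (5 : ℝ) ≤ log (N : ℝ) := hL.eventually_ge_atTop _
  obtain ⟨N₀, hN₀⟩ := eventually_atTop.1 (e1.and (e2.and e3))
  refine ⟨max N₀ 1, fun A hA h h1 h2 => ?_⟩
  obtain ⟨f1, f2, f3⟩ := hN₀ A.card ((le_max_left _ _).trans hA)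
  have hA1 : 1 ≤ A.card := (le_max_right _ _).trans hA
  have hAn : A.Nonempty := card_pos.1 hA1
  have hN : (0 : ℝ) < A.card := by exact_mod_cast hA1
  set L : ℝ := log A.card with hLdef
  have hh0 : (max k₀ 3 : ℝ) ≤ h := f1.trans h1
  have hk : k₀ ≤ h := by exact_mod_cast (le_max_left _ _).trans hh0
  have hh3 : (3 : ℝ) ≤ h := (le_max_right _ _).trans hh0
  have hlh1 : 1 ≤ log (h : ℝ) := by
    rw [← Real.log_exp 1]
    refine Real.log_le_log (Real.exp_pos _) ?_
    have := Real.exp_one_lt_d9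
    linarith
  rcases hmain A hAn with h3 | h3
  · refine le_trans ?_ ((h3 h hk).trans (le_max_left _ _))
    rw [Real.rpow_def_of_pos hN, Real.rpow_def_of_pos hN, ← Real.exp_add]
    apply Real.exp_le_exp.2
    -- `C h (log h)^3 ≤ (1/5) L log h`
    have h4 : log (h : ℝ) ≤ log L := by
      by_cases hc1 : c ≤ 1
      · refine (Real.log_le_log (by linarith) h2).trans ?_
        rw [Real.log_rpow (by linarith)]
        have : 0 ≤ log L := Real.log_nonneg (by linarith)
        nlinarith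
      · exfalso
        have h5 : L ^ (1 - c) ≤ 1 := Real.rpow_le_one_of_one_le_of_nonpos (by linarith) (by linarith)
        linarith
    have h5 : C * (h * log (h : ℝ) ^ 3) ≤ 1 / 5 * L * log h := by
      have h6 : log (h : ℝ) ^ 2 ≤ log L ^ 2 := pow_le_pow_left₀ (by linarith) h4 2
      have h7 : C * log (h : ℝ) ^ 2 * h ≤ C * log L ^ 2 * L ^ (1 - c) := by
        refine mul_le_mul (mul_le_mul_of_nonneg_left h6 hC.le) h2 (by positivity) (by positivity)
      calc C * (h * log (h : ℝ) ^ 3) = (C * log (h : ℝ) ^ 2 * h) * log h := by ring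
        _ ≤ (1 / 5 * L) * log h := mul_le_mul_of_nonneg_right (h7.trans f2) (by linarith)
    have h8 : log (A.card : ℝ) = L := rfl
    rw [h8]
    nlinarith
  · refine le_trans ?_ ((h3 h hk).trans (le_max_right _ _))
    rw [Real.rpow_def_of_pos hN, Real.rpow_def_of_pos (by positivity),
      Real.log_div (by positivity) (by norm_num)]
    apply Real.exp_le_exp.2
    have h4 : log 4 ≤ 1.4 := by
      have : (log 4 : ℝ) = 2 * log 2 := by
        rw [show (4 : ℝ) = 2 ^ 2 by norm_num, Real.log_pow]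
        norm_num
      have := Real.log_two_lt_d9
      linarith
    have h8 : log (A.card : ℝ) = L := rfl
    rw [h8]
    nlinarith

/-- **The order of growth.** There is `C > 0` such that for every `c > 0` and all large `N`: for all
`h` with `(log N)^c ≤ h ≤ (log N)^(1-c)`, `max (|hA|, |A^h|) ≥ N^(1/2 log h)` for every set `A` of
`N` integers, and some set `A` of `N` positive integers has `max (|hA|, |A^h|) ≤ N^(C/c log h)` for
all `h ≥ (log N)^c`. -/
theorem order : ∃ C : ℝ, 0 < C ∧ ∀ c : ℝ, 0 < c → c < 1 → ∃ N₀ : ℕ, ∀ N : ℕ, N₀ ≤ N →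
    (∀ A : Finset ℤ, A.card = N → ∀ h : ℕ, log N ^ c ≤ h → (h : ℝ) ≤ log N ^ (1 - c) →
      (N : ℝ) ^ (1 / 2 * log h) ≤ max
        (((Fintype.piFinset (fun _ : Fin h => A)).image (fun f : Fin h → ℤ => ∑ i, f i)).card : ℝ)
        (((Fintype.piFinset (fun _ : Fin h => A)).image (fun f : Fin h → ℤ => ∏ i, f i)).card : ℝ))
    ∧ ∃ A : Finset ℤ, A.card = N ∧ (∀ a ∈ A, 0 < a) ∧ ∀ h : ℕ, log N ^ c ≤ h →
      max
        (((Fintype.piFinset (fun _ : Fin h => A)).image (fun f : Fin h → ℤ => ∑ i, f i)).card : ℝ)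
        (((Fintype.piFinset (fun _ : Fin h => A)).image (fun f : Fin h → ℤ => ∏ i, f i)).card : ℝ)
        ≤ (N : ℝ) ^ (C / c * log h) := by
  obtain ⟨C, hC, hS⟩ := sharp
  refine ⟨2 * C, by positivity, fun c hc hc1 => ?_⟩
  obtain ⟨N₁, hN₁⟩ := order_lower c hc
  have hL : Tendsto (fun N : ℕ => log (N : ℝ)) atTop atTop :=
    Real.tendsto_log_atTop.comp tendsto_natCast_atTop_atTop
  have e1 : ∀ᶠ N : ℕ in atTop, (2 : ℝ) ≤ log (N : ℝ) ^ c :=
    ((tendsto_rpow_atTop hc).comp hL).eventually_ge_atTop _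
  have e3 : ∀ᶠ N : ℕ in atTop, (5 : ℝ) ≤ log (N : ℝ) := hL.eventually_ge_atTop _
  obtain ⟨N₂, hN₂⟩ := eventually_atTop.1 (e1.and e3)
  refine ⟨max (max N₁ N₂) 3, fun N hN => ⟨fun A hA h h1 h2 => ?_, ?_⟩⟩
  · subst hA
    exact hN₁ A (by omega) h h1 h2
  · obtain ⟨A, hA, hpos, hA2⟩ := hS N (by omega)
    obtain ⟨f1, f3⟩ := hN₂ N (by omega)
    refine ⟨A, hA, hpos, fun h h1 => ?_⟩
    have hN1 : (1 : ℝ) ≤ N := by exact_mod_cast (by omega : 1 ≤ N)
    have hh2 : (2 : ℝ) ≤ h := f1.trans h1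
    have hh2' : 2 ≤ h := by exact_mod_cast hh2
    have hlh : 0 < log (h : ℝ) := Real.log_pos (by linarith)
    have hll : 0 ≤ log (log (N : ℝ)) := Real.log_nonneg (by linarith)
    have h3 : c * log (log (N : ℝ)) ≤ log h := by
      have := Real.log_le_log (by linarith) h1
      rwa [Real.log_rpow (by linarith)] at this
    have h4 : log (log (N : ℝ)) ≤ log h / c := by
      rw [le_div_iff₀ hc]
      linarith
    have h5 : log (h : ℝ) ≤ log h / c := by
      rw [le_div_iff₀ hc]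
      nlinarith
    obtain ⟨g1, g2⟩ := hA2 h hh2'
    refine max_le (g1.trans ?_) (g2.trans ?_)
    · refine Real.rpow_le_rpow_of_exponent_le hN1 ?_
      calc C * (log h + log (log N)) ≤ C * (log h / c + log h / c) :=
            mul_le_mul_of_nonneg_left (by linarith) hC.le
        _ = 2 * C / c * log h := by ring
    · refine Real.rpow_le_rpow_of_exponent_le hN1 ?_
      calc C * log h ≤ C * (log h / c + log h / c) :=
            mul_le_mul_of_nonneg_left (by linarith) hC.le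
        _ = 2 * C / c * log h := by ring

end Pool.Agent.Helper74.SH
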